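import Mathlib
import Pool.Agent.Y817.ISO.Stm

/-!
# Project ISO: part CODE
-/

set_option autoImplicit false

namespace Pool.Agent.X223.ISO.Code

open Pool.Agent.Y817.ISO

theorem prim_replicate {β : Type} [Primcodable β] (b : β) :
    Primrec (fun n : ℕ => List.replicate n b) := by
  have h : Primrec (fun n : ℕ => (List.range n).map (fun _ => b)) :=
    Primrec.list_map Primrec.list_range (Primrec₂.const b)
  refine h.of_eq ?_
  intro n
  rw [List.map_const', List.length_range]

theorem prim_W {β : Type} [Primcodable β] (c x t τ : β) : Primrec (fun n : ℕ => W c x t τ n) := by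
  have hc : ∀ (b : β × Bool) {f : ℕ → List (β × Bool)}, Primrec f → Primrec (fun n => b :: f n) :=
    fun b f hf => Primrec.list_cons.comp (Primrec.const b) hf
  have ha : ∀ (b : β × Bool) {f : ℕ → List (β × Bool)}, Primrec f →
      Primrec (fun n => List.replicate n b ++ f n) :=
    fun b f hf => Primrec.list_append.comp (prim_replicate b) hf
  unfold W
  exact hc _ (ha _ (hc _ (ha _ (hc _ (ha _ (hc _ (ha _ (hc _ (ha _ (hc _ (ha _ (hc _ (ha _
    (hc _ (prim_replicate _)))))))))))))))

theorem map_W {A B : Type} (g : A → B) (c x t τ : A) (n : ℕ) :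
    (W c x t τ n).map (fun q => (g q.1, q.2)) = W (g c) (g x) (g t) (g τ) n := by
  simp [W, List.map_append, List.map_replicate]

/-- CODE. -/
theorem t : StmCode := by
  intro A _ c x t τ L
  let e : A ≃ Fin (Fintype.card A) := Fintype.equivFin A
  let g : A → ℕ := fun a => (e a : ℕ)
  let mp : List (A × Bool) → List (ℕ × Bool) := fun w => w.map (fun q => (g q.1, q.2))
  refine ⟨fun n => (Fintype.card A, W (g c) (g x) (g t) (g τ) n :: L.map mp), ?_, ?_⟩
  · apply Primrec.to_comp
    exact Primrec.pair (Primrec.const _) (Primrec.list_cons.comp (prim_W _ _ _ _)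
      (Primrec.const _))
  · intro n
    have hf : ∀ w : List (A × Bool), (mp w).filterMap (fun q =>
        if h : q.1 < Fintype.card A then some ((⟨q.1, h⟩ : Fin (Fintype.card A)), q.2) else none) =
        w.map (fun q => (e q.1, q.2)) := by
      intro w
      simp only [mp, List.filterMap_map]
      induction w with
      | nil => rfl
      | cons a w ih =>
        rw [List.filterMap_cons, List.map_cons, ih]
        simp [g]
    have hset : FreeGroup.freeGroupCongr e ''
        {g : FreeGroup A | ∃ w ∈ W c x t τ n :: L, g = FreeGroup.mk w} =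
        relSet (Fintype.card A, W (g c) (g x) (g t) (g τ) n :: L.map mp) := by
      have hW : W (g c) (g x) (g t) (g τ) n :: L.map mp = (W c x t τ n :: L).map mp := by
        rw [List.map_cons]
        congr 1
        exact (map_W g c x t τ n).symm
      ext y
      simp only [relSet]
      constructor
      · rintro ⟨z, ⟨w, hw, rfl⟩, rfl⟩
        refine ⟨mp w, ?_, ?_⟩
        · rw [hW]; exact List.mem_map_of_mem hw
        · rw [hf]
          rw [FreeGroup.freeGroupCongr_apply, FreeGroup.map.mk]
      · rintro ⟨w', hw', rfl⟩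
        rw [hW] at hw'
        obtain ⟨w, hw, rfl⟩ := List.mem_map.1 hw'
        refine ⟨FreeGroup.mk w, ⟨w, hw, rfl⟩, ?_⟩
        rw [hf]
        rw [FreeGroup.freeGroupCongr_apply, FreeGroup.map.mk]
    unfold PG
    rw [← hset]
    exact ⟨(PresentedGroup.equivPresentedGroup _ e).symm⟩

end Pool.Agent.X223.ISO.Code
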