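import Mathlib

/-!
# Project ISO: HNN extensions and closed subgroups
-/

set_option autoImplicit false

namespace Pool.Agent.X223.ISO.Fam

open HNNExtension

section step

variable {G : Type} [Group G] {A B : Subgroup G} {φ : A ≃* B} {S : Subgroup G}

theorem chain_tail {u : ℤˣ} {g : G} {l : List (ℤˣ × G)}
    (h : ((u, g) :: l).IsChain (fun a b => a.2 ∈ toSubgroup A B a.1 → a.1 = b.1)) :
    l.IsChain (fun a b => a.2 ∈ toSubgroup A B a.1 → a.1 = b.1) := (List.isChain_cons.1 h).2

/-- The value of a word. -/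
def val (φ : A ≃* B) (g : G) (l : List (ℤˣ × G)) : HNNExtension G A B φ :=
  of g * (l.map (fun x => (t ^ (x.1 : ℤ) * of x.2 : HNNExtension G A B φ))).prod

theorem move (h : ∀ a : A, (a : G) ∈ S ↔ ((φ a : B) : G) ∈ S) (u : ℤˣ) {g : G}
    (hg : g ∈ toSubgroup A B u) (hS : g ∈ S) :
    ∃ g' ∈ S, (t ^ (u : ℤ) * of g : HNNExtension G A B φ) = of g' * t ^ (u : ℤ) := by
  rcases Int.units_eq_one_or u with rfl | rfl
  · rw [toSubgroup_one] at hg
    refine ⟨φ ⟨g, hg⟩, (h ⟨g, hg⟩).1 hS, ?_⟩
    have := t_mul_of (φ := φ) ⟨g, hg⟩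
    simpa using this
  · rw [toSubgroup_neg_one] at hg
    refine ⟨φ.symm ⟨g, hg⟩, (h (φ.symm ⟨g, hg⟩)).2 (by simpa using hS), ?_⟩
    have := inv_t_mul_of (φ := φ) ⟨g, hg⟩
    simpa using this

theorem form (h : ∀ a : A, (a : G) ∈ S ↔ ((φ a : B) : G) ∈ S) (y : HNNExtension G A B φ)
    (hy : y ∈ Subgroup.closure ((fun g : G => (of g : HNNExtension G A B φ)) '' S ∪ {t})) :
    ∃ g ∈ S, ∃ l : List (ℤˣ × G),
      l.IsChain (fun a b => a.2 ∈ toSubgroup A B a.1 → a.1 = b.1) ∧ y = val φ g l ∧
      ∀ p ∈ l, p.2 ∈ S := by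
  have mulS : ∀ s ∈ S, ∀ y : HNNExtension G A B φ, (∃ g ∈ S, ∃ l : List (ℤˣ × G),
      l.IsChain (fun a b => a.2 ∈ toSubgroup A B a.1 → a.1 = b.1) ∧ y = val φ g l ∧
      ∀ p ∈ l, p.2 ∈ S) → ∃ g ∈ S, ∃ l : List (ℤˣ × G),
      l.IsChain (fun a b => a.2 ∈ toSubgroup A B a.1 → a.1 = b.1) ∧ of s * y = val φ g l ∧
      ∀ p ∈ l, p.2 ∈ S := by
    rintro s hs y ⟨g, hg, l, hl, rfl, hlS⟩
    exact ⟨s * g, mul_mem hs hg, l, hl, by rw [val, val, map_mul, mul_assoc], hlS⟩
  have mulT : ∀ (u : ℤˣ) (y : HNNExtension G A B φ), (∃ g ∈ S, ∃ l : List (ℤˣ × G),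
      l.IsChain (fun a b => a.2 ∈ toSubgroup A B a.1 → a.1 = b.1) ∧ y = val φ g l ∧
      ∀ p ∈ l, p.2 ∈ S) → ∃ g ∈ S, ∃ l : List (ℤˣ × G),
      l.IsChain (fun a b => a.2 ∈ toSubgroup A B a.1 → a.1 = b.1) ∧
      t ^ (u : ℤ) * y = val φ g l ∧ ∀ p ∈ l, p.2 ∈ S := by
    rintro u y ⟨g, hg, l, hl, rfl, hlS⟩
    by_cases hc : g ∈ toSubgroup A B u ∧ ∃ g1 l1, l = (-u, g1) :: l1
    · obtain ⟨hgA, g1, l1, rfl⟩ := hc
      obtain ⟨g', hg', he⟩ := move (φ := φ) h u hgA hg
      refine ⟨g' * g1, mul_mem hg' (hlS (-u, g1) List.mem_cons_self), l1, chain_tail hl, ?_,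
        fun p hp => hlS p (List.mem_cons_of_mem _ hp)⟩
      rw [val, ← mul_assoc, he, val]
      simp only [List.map_cons, List.prod_cons, map_mul]
      have h1 : (t ^ (u : ℤ) * t ^ ((-u : ℤˣ) : ℤ) : HNNExtension G A B φ) = 1 := by
        rw [← zpow_add]
        simp
      calc (of g' * t ^ (u : ℤ) * (t ^ ((-u : ℤˣ) : ℤ) * of g1 *
            (List.map (fun x => (t ^ (x.1 : ℤ) * of x.2 : HNNExtension G A B φ)) l1).prod) :
              HNNExtension G A B φ)
          = of g' * (t ^ (u : ℤ) * t ^ ((-u : ℤˣ) : ℤ)) * of g1 *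
            (List.map (fun x => (t ^ (x.1 : ℤ) * of x.2 : HNNExtension G A B φ)) l1).prod := by
            simp only [mul_assoc]
        _ = _ := by rw [h1, mul_one]
    · refine ⟨1, one_mem _, (u, g) :: l, ?_, ?_, ?_⟩
      · rw [List.isChain_cons]
        refine ⟨?_, hl⟩
        intro y hy hgA
        cases l with
        | nil => simp at hy
        | cons b l1 =>
          have hb : y = b := by simpa using hy.symm
          subst hb
          by_contra hne
          apply hc
          refine ⟨hgA, y.2, l1, ?_⟩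
          have : y.1 = -u := by
            simp only at hne
            rcases Int.units_eq_one_or u with rfl | rfl <;>
              rcases Int.units_eq_one_or y.1 with h' | h' <;> simp_all
          rw [← this]
      · simp [val, mul_assoc]
      · intro p hp
        rcases List.mem_cons.1 hp with rfl | hp
        · exact hg
        · exact hlS p hp
  induction hy using Subgroup.closure_induction_left with
  | one => exact ⟨1, one_mem _, [], List.isChain_nil, by simp [val], by simp⟩
  | mul_left x hx y hy ih =>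
    rcases hx with ⟨s, hs, rfl⟩ | hx
    · exact mulS s hs y ih
    · rw [Set.mem_singleton_iff] at hx
      subst hx
      simpa using mulT 1 y ih
  | inv_mul_cancel x hx y hy ih =>
    rcases hx with ⟨s, hs, rfl⟩ | hx
    · have := mulS s⁻¹ (inv_mem hs) y ih
      simpa using this
    · rw [Set.mem_singleton_iff] at hx
      subst hx
      simpa using mulT (-1) y ih

theorem step (h : ∀ a : A, (a : G) ∈ S ↔ ((φ a : B) : G) ∈ S) (x : G)
    (hx : (of x : HNNExtension G A B φ) ∈
      Subgroup.closure ((fun g : G => (of g : HNNExtension G A B φ)) '' S ∪ {t})) : x ∈ S := by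
  obtain ⟨g, hg, l, hl, he, -⟩ := form h _ hx
  let w : NormalWord.ReducedWord G A B := ⟨g, l, hl⟩
  have h2 := ReducedWord.toList_eq_nil_of_mem_of_range φ w ⟨x, he⟩
  have h3 : l = [] := h2
  subst h3
  have h4 : (of x : HNNExtension G A B φ) = of g := by
    rw [he]; simp [val]
  rw [of_injective _ h4]
  exact hg

end step

/-- The statement for a family of stable letters. -/
def P (ι : Type) : Prop := ∀ (G : Type) [Group G] (S : Subgroup G) (Q : ι → Type)
  [∀ i, Group (Q i)] (f g : ∀ i, Q i →* G), (∀ i, Function.Injective (f i)) →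
  (∀ i, Function.Injective (g i)) → (∀ i q, f i q ∈ S ↔ g i q ∈ S) →
  ∃ (M : Type) (_ : Group M) (of : G →* M) (r : ι → M) (St : Subgroup M),
    Function.Injective of ∧ (∀ i q, r i * of (f i q) = of (g i q) * r i) ∧
    (∀ i, r i ∈ St) ∧ ∀ x, of x ∈ St ↔ x ∈ S

theorem fam (ι : Type) [Finite ι] : P ι := by
  induction ι using Finite.induction_empty_option with
  | of_equiv e h =>
    intro G _ S Q _ f g hf hg hS
    obtain ⟨M, _, o, r, St, h1, h2, h3, h4⟩ := h G S (fun a => Q (e a)) (fun a => f (e a))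
      (fun a => g (e a)) (fun a => hf _) (fun a => hg _) (fun a => hS _)
    refine ⟨M, _, o, fun b => r (e.symm b), St, h1, ?_, fun b => h3 _, h4⟩
    intro b q
    obtain ⟨a, rfl⟩ := e.surjective b
    simp only [Equiv.symm_apply_apply]
    exact h2 a q
  | h_empty =>
    intro G _ S Q _ f g hf hg hS
    exact ⟨G, _, MonoidHom.id G, fun i => i.elim, S, Function.injective_id, fun i => i.elim,
      fun i => i.elim, fun x => Iff.rfl⟩
  | h_option h =>
    intro G _ S Q _ f g hf hg hS
    obtain ⟨M, _, o, r, St, h1, h2, h3, h4⟩ := h G S (fun a => Q (some a)) (fun a => f (some a))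
      (fun a => g (some a)) (fun a => hf _) (fun a => hg _) (fun a => hS _)
    have hfo : Function.Injective (o.comp (f none)) := h1.comp (hf none)
    have hgo : Function.Injective (o.comp (g none)) := h1.comp (hg none)
    let eA := MonoidHom.ofInjective hfo
    let eB := MonoidHom.ofInjective hgo
    let φ : (o.comp (f none)).range ≃* (o.comp (g none)).range := eA.symm.trans eB
    have hφ : ∀ q, ((φ (eA q) : (o.comp (g none)).range) : M) = o (g none q) := by
      intro q
      simp only [φ, MulEquiv.trans_apply, MulEquiv.symm_apply_apply]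
      exact MonoidHom.ofInjective_apply hgo
    have hA : ∀ q, ((eA q : (o.comp (f none)).range) : M) = o (f none q) := by
      intro q
      exact MonoidHom.ofInjective_apply hfo
    have hSt : ∀ a : (o.comp (f none)).range, (a : M) ∈ St ↔
        ((φ a : (o.comp (g none)).range) : M) ∈ St := by
      intro a
      obtain ⟨q, rfl⟩ := eA.surjective a
      rw [hφ, hA, h4, h4]
      exact hS none q
    refine ⟨HNNExtension M _ _ φ, inferInstance, HNNExtension.of.comp o,
      fun i => Option.elim i HNNExtension.t (fun a => HNNExtension.of (r a)),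
      Subgroup.closure ((fun g : M => (HNNExtension.of g : HNNExtension M _ _ φ)) '' St ∪
        {HNNExtension.t}), (HNNExtension.of_injective φ).comp h1, ?_, ?_, ?_⟩
    · rintro (_ | a) q
      · have := t_mul_of (φ := φ) (eA q)
        rw [hφ, hA] at this
        exact this
      · have := h2 a q
        simp only [Option.elim, MonoidHom.comp_apply]
        rw [← map_mul, this, map_mul]
    · rintro (_ | a)
      · exact Subgroup.subset_closure (Or.inr rfl)
      · exact Subgroup.subset_closure (Or.inl ⟨r a, h3 a, rfl⟩)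
    · intro x
      constructor
      · intro hx
        exact (h4 x).1 (step hSt (o x) hx)
      · intro hx
        exact Subgroup.subset_closure (Or.inl ⟨o x, (h4 x).2 hx, rfl⟩)

end Pool.Agent.X223.ISO.Fam
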