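import Mathlib
import Pool.Agent.Y817.ISO.Stm
import Pool.Agent.X223.ISO.Fam

/-!
# Project ISO: the model of the rules (lamplighter group) and the part KK
-/

set_option autoImplicit false

namespace Pool.Agent.X223.ISO.Model

open Pool.Agent.Y817.ISO

/-- The action of translations on the functions. -/
def actN (P V : Type) [AddCommGroup V] :
    Multiplicative V →* MulAut (P × V → Multiplicative ℤ) where
  toFun v :=
    { toFun := fun F x => F (x.1, x.2 + v.toAdd)
      invFun := fun F x => F (x.1, x.2 - v.toAdd)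
      left_inv := by intro F; funext x; simp
      right_inv := by intro F; funext x; simp
      map_mul' := by intro F F'; rfl }
  map_one' := by
    ext F x
    simp
  map_mul' v w := by
    ext F x
    simp [add_assoc]

/-- The lamplighter group. -/
abbrev M0 (P V : Type) [AddCommGroup V] : Type :=
  (P × V → Multiplicative ℤ) ⋊[actN P V] Multiplicative V

/-- The subgroup of the functions with support in `C`. -/
def S0 {P V : Type} [AddCommGroup V] (C : P → V → Prop) : Subgroup (M0 P V) where
  carrier := {m | m.right = 1 ∧ ∀ x : P × V, m.left x ≠ 1 → C x.1 x.2}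
  one_mem' := by
    refine ⟨rfl, ?_⟩
    intro x hx
    exact absurd rfl hx
  mul_mem' := by
    rintro a b ⟨ha, ha'⟩ ⟨hb, hb'⟩
    refine ⟨by rw [SemidirectProduct.mul_right, ha, hb, one_mul], ?_⟩
    intro x hx
    rw [SemidirectProduct.mul_left, ha, map_one] at hx
    by_contra hC
    have h1 : a.left x = 1 := by
      by_contra h; exact hC (ha' x h)
    have h2 : b.left x = 1 := by
      by_contra h; exact hC (hb' x h)
    apply hx
    change a.left x * b.left x = 1
    rw [h1, h2, one_mul]
  inv_mem' := by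
    rintro a ⟨ha, ha'⟩
    refine ⟨by rw [SemidirectProduct.inv_right, ha, inv_one], ?_⟩
    intro x hx
    rw [SemidirectProduct.inv_left, ha, inv_one, map_one] at hx
    apply ha' x
    intro h
    apply hx
    change (a.left x)⁻¹ = 1
    rw [h, inv_one]

theorem mem_S0 {P V : Type} [AddCommGroup V] {C : P → V → Prop} {m : M0 P V} :
    m ∈ S0 C ↔ m.right = 1 ∧ ∀ x : P × V, m.left x ≠ 1 → C x.1 x.2 := Iff.rfl

section emb

variable {P V W : Type} [AddCommGroup V] [AddCommGroup W] (μ : W →+ V)

/-- The embedding of the index sets. -/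
def ix (p : P) (a : V) (x : Unit × W) : P × V := (p, μ x.2 + a)

theorem ix_inj (hμ : Function.Injective μ) (p : P) (a : V) : Function.Injective (ix μ p a) := by
  rintro ⟨⟨⟩, w⟩ ⟨⟨⟩, w'⟩ h
  simp only [ix, Prod.mk.injEq, true_and] at h
  rw [hμ (add_right_cancel h)]

/-- The embedding of lamplighter groups. -/
noncomputable def emb (hμ : Function.Injective μ) (p : P) (a : V) : M0 Unit W →* M0 P V :=
  SemidirectProduct.map (Function.ExtendByOne.hom (Multiplicative ℤ) (ix μ p a))
    (AddMonoidHom.toMultiplicative μ) (by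
      intro w
      ext h x
      change (Function.extend (ix μ p a) (fun y : Unit × W => h (y.1, y.2 + w.toAdd)) 1 x) =
        (Function.extend (ix μ p a) h 1 (x.1, x.2 + μ w.toAdd))
      by_cases hx : ∃ y, ix μ p a y = x
      · obtain ⟨y, rfl⟩ := hx
        rw [(ix_inj μ hμ p a).extend_apply]
        have : ((ix μ p a y).1, (ix μ p a y).2 + μ w.toAdd) = ix μ p a (y.1, y.2 + w.toAdd) := by
          simp only [ix, map_add, Prod.mk.injEq, true_and]
          abel
        rw [this, (ix_inj μ hμ p a).extend_apply]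
      · rw [Function.extend_apply' _ _ _ hx, Function.extend_apply']
        · rfl
        · rintro ⟨y, hy⟩
          apply hx
          refine ⟨(y.1, y.2 - w.toAdd), ?_⟩
          simp only [ix, Prod.mk.injEq] at hy
          ext1
          · exact hy.1
          · simp only [ix, map_sub]
            rw [← sub_eq_iff_eq_add.2 hy.2.symm.symm]
            abel)

theorem emb_right (hμ : Function.Injective μ) (p : P) (a : V) (m : M0 Unit W) :
    (emb μ hμ p a m).right = Multiplicative.ofAdd (μ m.right.toAdd) := rfl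

theorem emb_left (hμ : Function.Injective μ) (p : P) (a : V) (m : M0 Unit W) :
    (emb μ hμ p a m).left = Function.extend (ix μ p a) m.left 1 := rfl

theorem emb_inj (hμ : Function.Injective μ) (p : P) (a : V) :
    Function.Injective (emb μ hμ p a) := by
  intro m m' h
  have h1 : (emb μ hμ p a m).right = (emb μ hμ p a m').right := by rw [h]
  have h2 : (emb μ hμ p a m).left = (emb μ hμ p a m').left := by rw [h]
  rw [emb_right, emb_right] at h1
  rw [emb_left, emb_left] at h2
  apply SemidirectProduct.ext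
  · funext x
    have := congrFun h2 (ix μ p a x)
    rwa [(ix_inj μ hμ p a).extend_apply, (ix_inj μ hμ p a).extend_apply] at this
  · exact Multiplicative.toAdd.injective (hμ (Multiplicative.ofAdd.injective h1))

theorem emb_mem (hμ : Function.Injective μ) (p : P) (a : V) (C : P → V → Prop) (m : M0 Unit W) :
    emb μ hμ p a m ∈ S0 C ↔ m ∈ S0 (fun _ w => C p (μ w + a)) := by
  rw [mem_S0, mem_S0, emb_right, emb_left]
  constructor
  · rintro ⟨h1, h2⟩
    refine ⟨?_, ?_⟩
    · have : μ m.right.toAdd = μ 0 := by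
        rw [map_zero]; exact Multiplicative.ofAdd.injective h1
      exact Multiplicative.toAdd.injective (hμ this)
    · intro x hx
      have := h2 (ix μ p a x) (by rwa [(ix_inj μ hμ p a).extend_apply])
      exact this
  · rintro ⟨h1, h2⟩
    refine ⟨?_, ?_⟩
    · rw [h1]; simp
    · intro x hx
      by_cases hy : ∃ y, ix μ p a y = x
      · obtain ⟨y, rfl⟩ := hy
        rw [(ix_inj μ hμ p a).extend_apply] at hx
        exact h2 y hx
      · rw [Function.extend_apply' _ _ _ hy] at hx
        exact absurd rfl hx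

end emb

open Classical in
/-- The lamp. -/
noncomputable def lamp {P V : Type} [AddCommGroup V] (p : P) (v : V) : M0 P V :=
  SemidirectProduct.inl (Pi.mulSingle (p, v) (Multiplicative.ofAdd 1))

theorem lamp_left {P V : Type} [AddCommGroup V] (p : P) (v : V) (x : P × V) [Decidable (x = (p, v))] :
    (lamp p v).left x = if x = (p, v) then Multiplicative.ofAdd 1 else 1 := by
  classical
  change (Pi.mulSingle (M := fun _ : P × V => Multiplicative ℤ) (p, v)
    (Multiplicative.ofAdd (1 : ℤ))) x = _
  rw [Pi.mulSingle_apply]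
  congr

theorem T_lamp {P J : Type} (p : P) (v : J → ℤ) :
    T (SemidirectProduct.inr : Multiplicative (J → ℤ) →* M0 P (J → ℤ)) (fun p => lamp p 0) p v =
      lamp p v := by
  classical
  unfold T
  have h0 := SemidirectProduct.inl_aut_inv (φ := actN P (J → ℤ)) (Multiplicative.ofAdd v)
    (lamp p (0 : J → ℤ)).left
  have h00 : (lamp p (0 : J → ℤ)) = SemidirectProduct.inl (lamp p (0 : J → ℤ)).left := rfl
  rw [← h00, map_inv] at h0
  rw [← h0]
  apply SemidirectProduct.ext
  · funext x
    rw [SemidirectProduct.left_inl]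
    have h1 : (actN P (J → ℤ) (Multiplicative.ofAdd v)⁻¹ (lamp p (0 : J → ℤ)).left) x =
        (lamp p (0 : J → ℤ)).left (x.1, x.2 + -v) := rfl
    rw [← map_inv, h1, lamp_left, lamp_left]
    congr 1
    rw [Prod.ext_iff, Prod.ext_iff]
    simp [add_neg_eq_zero]
  · simp [lamp]

theorem lamp_mem {P V : Type} [AddCommGroup V] (C : P → V → Prop) (p : P) (v : V) :
    lamp p v ∈ S0 C ↔ C p v := by
  classical
  rw [mem_S0]
  constructor
  · rintro ⟨-, h⟩
    apply h (p, v)
    rw [lamp_left, if_pos rfl]
    intro h2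
    exact one_ne_zero (α := ℤ) (Multiplicative.ofAdd.injective h2)
  · intro h
    refine ⟨by simp [lamp], ?_⟩
    intro x hx
    rw [lamp_left] at hx
    by_cases hxp : x = (p, v)
    · subst hxp; exact h
    · rw [if_neg hxp] at hx; exact absurd rfl hx

theorem emb_lamp {P V W : Type} [AddCommGroup V] [AddCommGroup W] (μ : W →+ V)
    (hμ : Function.Injective μ) (p : P) (a : V) (w : W) :
    emb μ hμ p a (lamp () w) = lamp p (μ w + a) := by
  classical
  apply SemidirectProduct.ext
  · rw [emb_left]
    funext x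
    by_cases hy : ∃ y, ix μ p a y = x
    · obtain ⟨y, rfl⟩ := hy
      rw [(ix_inj μ hμ p a).extend_apply, lamp_left, lamp_left]
      congr 1
      have : (p, μ w + a) = ix μ p a ((), w) := rfl
      rw [this, (ix_inj μ hμ p a).eq_iff]
    · rw [Function.extend_apply' _ _ _ hy, lamp_left, if_neg]
      · rfl
      · rintro rfl
        exact hy ⟨((), w), rfl⟩
  · rw [emb_right]
    simp [lamp]

/-- MODEL for finitely many rules. -/
theorem model (P ι J : Type) [Finite ι] (D : Rules P ι J) (C : P → (J → ℤ) → Prop)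
    (hC : ∀ i w, C (D.src i) (D.μ i w + D.a i) ↔ C (D.tgt i) (D.ν i w + D.b i)) :
    ∃ (M : Type) (_ : Group M) (X : Multiplicative (J → ℤ) →* M) (t : P → M) (r : ι → M),
    Rel D M X t r ∧ ∃ St : Subgroup M, (∀ i, r i ∈ St) ∧ ∀ p v, T X t p v ∈ St ↔ C p v := by
  obtain ⟨M, _, o, r, St, h1, h2, h3, h4⟩ := Fam.fam ι (M0 P (J → ℤ)) (S0 C)
    (fun i => M0 Unit (Fin (D.dim i) → ℤ)) (fun i => emb (D.μ i) (D.μ_inj i) (D.src i) (D.a i))
    (fun i => emb (D.ν i) (D.ν_inj i) (D.tgt i) (D.b i)) (fun i => emb_inj _ _ _ _)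
    (fun i => emb_inj _ _ _ _) (by
      intro i q
      rw [emb_mem, emb_mem, mem_S0, mem_S0]
      constructor
      · rintro ⟨h1, h2⟩
        exact ⟨h1, fun x hx => (hC i x.2).1 (h2 x hx)⟩
      · rintro ⟨h1, h2⟩
        exact ⟨h1, fun x hx => (hC i x.2).2 (h2 x hx)⟩)
  have hT : ∀ p v, T (o.comp (SemidirectProduct.inr : Multiplicative (J → ℤ) →* M0 P (J → ℤ)))
      (fun p => o (lamp p 0)) p v = o (lamp p v) := by
    intro p v
    rw [← T_lamp]
    simp [T]
  refine ⟨M, _, o.comp SemidirectProduct.inr, fun p => o (lamp p 0), r, ⟨?_, ?_⟩, St, h3, ?_⟩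
  · intro i w
    have := h2 i (SemidirectProduct.inr (Multiplicative.ofAdd w))
    simpa [emb] using this
  · intro i
    rw [hT, hT]
    have := h2 i (lamp () 0)
    rw [emb_lamp, emb_lamp] at this
    simpa using this
  · intro p v
    rw [hT, h4, lamp_mem]

/-- KK. -/
theorem t (hM : StmMHNN) (hB : StmBase) : StmK := by
  intro P ι J _ _ D
  obtain ⟨hTF, hcl, hup, hemb⟩ := hB P J
  choose f hf hfX hft using fun i => hemb (D.dim i) (D.μ i) (D.μ_inj i) (D.src i) (D.a i)
  choose g hg hgX hgt using fun i => hemb (D.dim i) (D.ν i) (D.ν_inj i) (D.tgt i) (D.b i)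
  obtain ⟨K, _, o, r, ho, hr, hK, hclK, hupK⟩ := hM (G0 P J) ι
    (fun i => G0 Unit (Fin (D.dim i))) f g hf hg
  have hT : ∀ p v, T (o.comp (X0 P J)) (fun p => o (t0 p)) p v = o (T (X0 P J) t0 p v) := by
    intro p v
    simp [T]
  have hrel : Rel D K (o.comp (X0 P J)) (fun p => o (t0 p)) r := by
    refine ⟨?_, ?_⟩
    · intro i w
      have := hr i (X0 Unit (Fin (D.dim i)) (Multiplicative.ofAdd w))
      rw [hfX, hgX] at this
      exact this
    · intro i
      have := hr i (t0 ())
      rw [hft, hgt] at this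
      rw [hT, hT]
      exact this
  have hclose : Subgroup.closure (Set.range (o.comp (X0 P J)) ∪ Set.range (fun p => o (t0 p)) ∪
      Set.range r) = ⊤ := by
    rw [← top_le_iff, ← hclK, Subgroup.closure_le]
    rintro x (⟨y, rfl⟩ | ⟨i, rfl⟩)
    · have hy : y ∈ Subgroup.closure (Set.range (X0 P J) ∪ Set.range (t0 : P → G0 P J)) := by
        rw [hcl]; exact Subgroup.mem_top _
      have hy2 : o y ∈ (Subgroup.closure (Set.range (X0 P J) ∪
          Set.range (t0 : P → G0 P J))).map o := ⟨y, hy, rfl⟩
      rw [MonoidHom.map_closure] at hy2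
      refine Subgroup.closure_mono ?_ hy2
      rintro z ⟨u, (⟨v, rfl⟩ | ⟨p, rfl⟩), rfl⟩
      · exact Or.inl (Or.inl ⟨v, rfl⟩)
      · exact Or.inl (Or.inr ⟨p, rfl⟩)
    · exact Subgroup.subset_closure (Or.inr ⟨i, rfl⟩)
  have huniv : ∀ (H : Type) [Group H] (X' : Multiplicative (J → ℤ) →* H) (t' : P → H)
      (r' : ι → H), Rel D H X' t' r' → ∃ Φ : K →* H, (∀ v, Φ ((o.comp (X0 P J)) v) = X' v) ∧
        (∀ p, Φ (o (t0 p)) = t' p) ∧ ∀ i, Φ (r i) = r' i := by
    intro H _ X' t' r' hR
    obtain ⟨φ, hφX, hφt⟩ := hup H X' t'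
    have hφT : ∀ p v, φ (T (X0 P J) t0 p v) = T X' t' p v := by
      intro p v
      simp [T, hφX, hφt]
    obtain ⟨Φ, hΦo, hΦr⟩ := hupK H φ r' (by
      intro i q
      obtain ⟨-, hcl', -, -⟩ := hB Unit (Fin (D.dim i))
      have heq : ((MulAut.conj (r' i)).toMonoidHom.comp (φ.comp (f i))) = φ.comp (g i) := by
        apply MonoidHom.eq_of_eqOn_dense hcl'
        rintro x (⟨v, rfl⟩ | ⟨p, rfl⟩)
        · have h1 := hfX i v.toAdd
          have h2 := hgX i v.toAdd
          rw [ofAdd_toAdd] at h1 h2
          have h3 := hR.shift i v.toAdd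
          change r' i * φ (f i (X0 Unit (Fin (D.dim i)) v)) * (r' i)⁻¹ =
            φ (g i (X0 Unit (Fin (D.dim i)) v))
          rw [h1, h2, hφX, hφX, h3, mul_inv_cancel_right]
        · have h3 := hR.rule i
          change r' i * φ (f i (t0 ())) * (r' i)⁻¹ = φ (g i (t0 ()))
          rw [hft, hgt, hφT, hφT, h3, mul_inv_cancel_right]
      have := DFunLike.congr_fun heq q
      change r' i * φ (f i q) * (r' i)⁻¹ = φ (g i q) at this
      rw [← this]
      group)
    refine ⟨Φ, ?_, ?_, hΦr⟩
    · intro v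
      rw [MonoidHom.comp_apply, hΦo, hφX]
    · intro p
      rw [hΦo, hφt]
  refine ⟨K, _, o.comp (X0 P J), fun p => o (t0 p), r, hrel, hK hTF, hclose, huniv, ?_⟩
  intro p p' v v'
  constructor
  · rintro ⟨ρ, hρ, he⟩
    obtain ⟨M, _, X', t', r', hR, St, hSt, hC⟩ := model P ι J D
      (fun q u => Relation.EqvGen (Step D) (p', v') (q, u)) (by
        intro i w
        have hs : Relation.EqvGen (Step D) (D.src i, D.μ i w + D.a i)
            (D.tgt i, D.ν i w + D.b i) := Relation.EqvGen.rel _ _ (Step.mk i w)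
        exact ⟨fun h => Relation.EqvGen.trans _ _ _ h hs,
          fun h => Relation.EqvGen.trans _ _ _ h (Relation.EqvGen.symm _ _ hs)⟩)
    obtain ⟨Φ, h1, h2, h3⟩ := huniv M X' t' r' hR
    have hΦT : ∀ p v, Φ (T (o.comp (X0 P J)) (fun p => o (t0 p)) p v) = T X' t' p v := by
      intro p v
      simp only [T, map_mul, map_inv, h1, h2]
    have hΦρ : Φ ρ ∈ St := by
      have : Subgroup.closure (Set.range r) ≤ St.comap Φ := by
        rw [Subgroup.closure_le]
        rintro x ⟨i, rfl⟩
        change Φ (r i) ∈ St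
        rw [h3]
        exact hSt i
      exact this hρ
    have h4 : T X' t' p v ∈ St := by
      rw [← hΦT, he, map_mul, map_mul, map_inv, hΦT]
      exact mul_mem (mul_mem hΦρ ((hC p' v').2 (Relation.EqvGen.refl _))) (inv_mem hΦρ)
    exact Relation.EqvGen.symm _ _ ((hC p v).1 h4)
  · intro h
    have key : ∀ x y : P × (J → ℤ), Relation.EqvGen (Step D) x y →
        ∃ ρ ∈ Subgroup.closure (Set.range r), T (o.comp (X0 P J)) (fun p => o (t0 p)) x.1 x.2 =
          ρ * T (o.comp (X0 P J)) (fun p => o (t0 p)) y.1 y.2 * ρ⁻¹ := by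
      intro x y hxy
      induction hxy with
      | rel x y hs =>
        obtain ⟨i, w⟩ := hs
        refine ⟨(r i)⁻¹, inv_mem (Subgroup.subset_closure ⟨i, rfl⟩), ?_⟩
        have h1 := hrel.rule i
        have h2 := hrel.shift i w
        have hT2 : ∀ (p : P) (a b : J → ℤ), T (o.comp (X0 P J)) (fun p => o (t0 p)) p (a + b) =
            ((o.comp (X0 P J)) (Multiplicative.ofAdd a))⁻¹ *
              T (o.comp (X0 P J)) (fun p => o (t0 p)) p b *
              (o.comp (X0 P J)) (Multiplicative.ofAdd a) := by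
          intro p a b
          unfold T
          rw [add_comm a b, ofAdd_add, map_mul]
          group
        simp only
        rw [hT2, hT2]
        generalize (o.comp (X0 P J)) (Multiplicative.ofAdd (D.μ i w)) = A at *
        generalize (o.comp (X0 P J)) (Multiplicative.ofAdd (D.ν i w)) = B at *
        generalize T (o.comp (X0 P J)) (fun p => o (t0 p)) (D.src i) (D.a i) = U at *
        generalize T (o.comp (X0 P J)) (fun p => o (t0 p)) (D.tgt i) (D.b i) = V at *
        have hA : A = (r i)⁻¹ * B * r i := by rw [mul_assoc, ← h2]; group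
        have hU : U = (r i)⁻¹ * V * r i := by rw [mul_assoc, ← h1]; group
        rw [hA, hU]
        group
      | refl x => exact ⟨1, one_mem _, by group⟩
      | symm x y _ ih =>
        obtain ⟨ρ, hρ, he⟩ := ih
        exact ⟨ρ⁻¹, inv_mem hρ, by rw [he]; group⟩
      | trans x y z _ _ ih1 ih2 =>
        obtain ⟨ρ, hρ, he⟩ := ih1
        obtain ⟨ρ', hρ', he'⟩ := ih2
        exact ⟨ρ * ρ', mul_mem hρ hρ', by rw [he, he']; group⟩
    exact key _ _ h

end Pool.Agent.X223.ISO.Model
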