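import Mathlib
import Pool.Agent.Y817.ISO.Stm

/-!
# Project ISO: part PRES
-/

set_option autoImplicit false

namespace Pool.Agent.X223.ISO.Pres

open Pool.Agent.Y817.ISO

section general

variable {J : Type} [Fintype J] [DecidableEq J]

theorem dense : Subgroup.closure (Set.range fun j : J =>
    (Multiplicative.ofAdd (Pi.single j 1) : Multiplicative (J → ℤ))) = ⊤ := by
  rw [Subgroup.eq_top_iff']
  intro v
  have h : v = ∏ j, (Multiplicative.ofAdd (Pi.single j 1) : Multiplicative (J → ℤ)) ^
      (v.toAdd j) := by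
    apply Multiplicative.toAdd.injective
    rw [toAdd_prod]
    funext k
    simp [Pi.single_apply]
  rw [h]
  exact Subgroup.prod_mem _ fun j _ => Subgroup.zpow_mem _ (Subgroup.subset_closure (Set.mem_range_self j)) _

theorem hom_eq {H : Type} [Group H] {f g : Multiplicative (J → ℤ) →* H}
    (h : ∀ j, f (Multiplicative.ofAdd (Pi.single j 1)) =
      g (Multiplicative.ofAdd (Pi.single j 1))) : f = g := by
  apply MonoidHom.eq_of_eqOn_dense dense
  rintro x ⟨j, rfl⟩
  exact h j

theorem hom_formula {H : Type} [Group H] (X : Multiplicative (J → ℤ) →* H) (v : J → ℤ) :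
    X (Multiplicative.ofAdd v) = ((Finset.univ : Finset J).toList.map (fun j =>
      X (Multiplicative.ofAdd (Pi.single j 1)) ^ (v j))).prod := by
  have h : (Multiplicative.ofAdd v : Multiplicative (J → ℤ)) =
      ((Finset.univ : Finset J).toList.map (fun j =>
        (Multiplicative.ofAdd (Pi.single j 1) : Multiplicative (J → ℤ)) ^ (v j))).prod := by
    rw [Finset.prod_map_toList]
    apply Multiplicative.toAdd.injective
    rw [toAdd_prod]
    funext k
    simp [Pi.single_apply]
  rw [h, map_list_prod, List.map_map]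
  congr 1
  refine List.map_congr_left ?_
  intro j _
  simp

theorem hom_exists {H : Type} [Group H] (x : J → H) (hx : ∀ j k, Commute (x j) (x k)) :
    ∃ X : Multiplicative (J → ℤ) →* H, ∀ j, X (Multiplicative.ofAdd (Pi.single j 1)) = x j := by
  have hcomm : Pairwise fun i j => ∀ (a b : Multiplicative ℤ),
      Commute (zpowersHom H (x i) a) (zpowersHom H (x j) b) := by
    intro i j _ a b
    simp only [zpowersHom_apply]
    exact (hx i j).zpow_zpow _ _
  let Y : ((_ : J) → Multiplicative ℤ) →* H :=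
    MonoidHom.noncommPiCoprod (fun j => zpowersHom H (x j)) hcomm
  refine ⟨Y.comp (MulEquiv.piMultiplicative (fun _ : J => ℤ)).toMonoidHom, ?_⟩
  intro j
  have h : (MulEquiv.piMultiplicative (fun _ : J => ℤ)) (Multiplicative.ofAdd (Pi.single j 1)) =
      Pi.mulSingle j (Multiplicative.ofAdd 1) := by
    funext k
    by_cases hk : k = j
    · subst hk
      simp [MulEquiv.piMultiplicative]
    · simp [MulEquiv.piMultiplicative, hk]
  change Y ((MulEquiv.piMultiplicative (fun _ : J => ℤ)) (Multiplicative.ofAdd (Pi.single j 1)))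
    = x j
  rw [h]
  change MonoidHom.noncommPiCoprod (fun j => zpowersHom H (x j)) hcomm
    (Pi.mulSingle j (Multiplicative.ofAdd 1)) = x j
  rw [MonoidHom.noncommPiCoprod_mulSingle]
  simp

theorem commute_all {H : Type} [Group H] (X : Multiplicative (J → ℤ) →* H) (z : H)
    (h : ∀ j, Commute z (X (Multiplicative.ofAdd (Pi.single j 1)))) (v) : Commute z (X v) := by
  have : (MulAut.conj z).toMonoidHom.comp X = X := by
    apply hom_eq
    intro j
    change z * X (Multiplicative.ofAdd (Pi.single j 1)) * z⁻¹ = _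
    rw [(h j).eq, mul_inv_cancel_right]
  have h2 := DFunLike.congr_fun this v
  change z * X v * z⁻¹ = X v at h2
  exact mul_inv_eq_iff_eq_mul.1 h2

end general

/-- Commutator. -/
def cm {A : Type} (a b : FreeGroup A) : FreeGroup A := a * b * (b * a)⁻¹

/-- Equation. -/
def eqn {A : Type} (a b : FreeGroup A) : FreeGroup A := a * b⁻¹

theorem lift_cm {A H : Type} [Group H] (h : A → H) (a b : FreeGroup A) :
    FreeGroup.lift h (cm a b) = 1 ↔ Commute (FreeGroup.lift h a) (FreeGroup.lift h b) := by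
  rw [cm, map_mul, map_inv, mul_inv_eq_one, map_mul, map_mul]
  rfl

theorem lift_eqn {A H : Type} [Group H] (h : A → H) (a b : FreeGroup A) :
    FreeGroup.lift h (eqn a b) = 1 ↔ FreeGroup.lift h a = FreeGroup.lift h b := by
  rw [eqn, map_mul, map_inv, mul_inv_eq_one]

theorem all_map {A α : Type} [Fintype α] (f : α → FreeGroup A) (p : FreeGroup A → Prop) :
    (∀ r ∈ (Finset.univ : Finset α).toList.map f, p r) ↔ ∀ x, p (f x) := by
  simp

section

variable {P ι J : Type} [Fintype P] [Fintype ι] [Fintype J] [DecidableEq J]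

/-- The generators. -/
def gx (j : J) : FreeGroup (Gen P ι J) := FreeGroup.of (Sum.inl j)
/-- The generators. -/
def gt (p : P) : FreeGroup (Gen P ι J) := FreeGroup.of (Sum.inr (Sum.inl p))
/-- The generators. -/
def gr (i : ι) : FreeGroup (Gen P ι J) := FreeGroup.of (Sum.inr (Sum.inr (Sum.inl i)))
/-- The generators. -/
def gc (i : Fin 5) : FreeGroup (Gen P ι J) := FreeGroup.of (Sum.inr (Sum.inr (Sum.inr i)))

/-- The word of `X v`. -/
noncomputable def gX (v : J → ℤ) : FreeGroup (Gen P ι J) :=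
  ((Finset.univ : Finset J).toList.map (fun j => gx j ^ (v j))).prod

/-- The word of `T p v`. -/
noncomputable def gT (p : P) (v : J → ℤ) : FreeGroup (Gen P ι J) := (gX v)⁻¹ * gt p * gX v

/-- The relators. -/
noncomputable def R (D : Rules P ι J) (B : P) (e : J) : List (FreeGroup (Gen P ι J)) :=
  (Finset.univ : Finset (J × J)).toList.map (fun q => cm (gx q.1) (gx q.2)) ++
  ((Finset.univ : Finset (Σ i, Fin (D.dim i))).toList.map (fun q =>
    eqn (gr q.1 * gX (D.μ q.1 (Pi.single q.2 1))) (gX (D.ν q.1 (Pi.single q.2 1)) * gr q.1)) ++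
  ((Finset.univ : Finset ι).toList.map (fun i =>
    eqn (gr i * gT (D.src i) (D.a i)) (gT (D.tgt i) (D.b i) * gr i)) ++
  ((Finset.univ : Finset J).toList.map (fun j => cm (gc 0) (gx j)) ++
  ((Finset.univ : Finset ι).toList.map (fun i => cm (gc 0) (gr i)) ++
  ((Finset.univ : Finset J).toList.map (fun j => cm (gc 1) (gx j)) ++
  ((Finset.univ : Finset P).toList.map (fun p => cm (gc 1) (gt p)) ++
  ((Finset.univ : Finset ι).toList.map (fun i => cm (gc 1) (gr i)) ++
  ((Finset.univ : Finset Unit).toList.map (fun _ =>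
    eqn ((gc 1)⁻¹ * gc 0 * gc 1) (gc 0 ^ 2)) ++
  ((Finset.univ : Finset Unit).toList.map (fun _ => cm (gc 2) (gx e * gc 1)) ++
  ((Finset.univ : Finset Unit).toList.map (fun _ =>
    cm (gc 2) ((gt B)⁻¹ * gc 0 ^ 2 * gt B)) ++
  ((Finset.univ : Finset J).toList.map (fun j => cm (gc 3) (gc 2 * gx j * (gc 2)⁻¹)) ++
  ((Finset.univ : Finset P).toList.map (fun p => cm (gc 3) (gc 2 * gt p * (gc 2)⁻¹)) ++
  ((Finset.univ : Finset ι).toList.map (fun i => cm (gc 3) (gc 2 * gr i * (gc 2)⁻¹)) ++
  ((Finset.univ : Finset Unit).toList.map (fun _ => cm (gc 3) (gc 2 * gc 0 * (gc 2)⁻¹)) ++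
  ((Finset.univ : Finset ι).toList.map (fun i => cm (gc 3) (gr i)) ++
  ((Finset.univ : Finset Unit).toList.map (fun _ => eqn (gc 4 ^ 5) 1) ++
  ((Finset.univ : Finset Unit).toList.map (fun _ => cm (gc 4) (gc 0)))))))))))))))))))

end

/-- PRES. -/
theorem t : StmPres := by
  classical
  intro P ι J _ _ _ _ D B e
  refine ⟨(R D B e).map FreeGroup.toWord, ?_⟩
  intro H _ h
  have h0 : (∀ w ∈ (R D B e).map FreeGroup.toWord, FreeGroup.lift h (FreeGroup.mk w) = 1) ↔
      ∀ r ∈ R D B e, FreeGroup.lift h r = 1 := by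
    constructor
    · intro h1 r hr
      have := h1 _ (List.mem_map_of_mem hr)
      rwa [FreeGroup.mk_toWord] at this
    · intro h1 w hw
      obtain ⟨r, hr, rfl⟩ := List.mem_map.1 hw
      rw [FreeGroup.mk_toWord]
      exact h1 r hr
  rw [h0]
  have hlx : ∀ j, FreeGroup.lift h (gx j : FreeGroup (Gen P ι J)) = h (Sum.inl j) := by
    intro j; simp [gx]
  have hlt : ∀ p, FreeGroup.lift h (gt p : FreeGroup (Gen P ι J)) = h (Sum.inr (Sum.inl p)) := by
    intro j; simp [gt]
  have hlr : ∀ i, FreeGroup.lift h (gr i : FreeGroup (Gen P ι J)) =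
      h (Sum.inr (Sum.inr (Sum.inl i))) := by
    intro j; simp [gr]
  have hlc : ∀ i, FreeGroup.lift h (gc i : FreeGroup (Gen P ι J)) =
      h (Sum.inr (Sum.inr (Sum.inr i))) := by
    intro j; simp [gc]
  have hlX : ∀ X : Multiplicative (J → ℤ) →* H,
      (∀ j, X (Multiplicative.ofAdd (Pi.single j 1)) = h (Sum.inl j)) → ∀ v,
      FreeGroup.lift h (gX v : FreeGroup (Gen P ι J)) = X (Multiplicative.ofAdd v) := by
    intro X hX v
    rw [hom_formula, gX, map_list_prod, List.map_map]
    congr 1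
    refine List.map_congr_left ?_
    intro j _
    simp only [Function.comp_apply, map_zpow, hlx, hX]
  have hlT : ∀ X : Multiplicative (J → ℤ) →* H,
      (∀ j, X (Multiplicative.ofAdd (Pi.single j 1)) = h (Sum.inl j)) → ∀ p v,
      FreeGroup.lift h (gT p v : FreeGroup (Gen P ι J)) =
        T X (fun p => h (Sum.inr (Sum.inl p))) p v := by
    intro X hX p v
    rw [gT, T, map_mul, map_mul, map_inv, hlX X hX, hlt]
  simp only [R, List.forall_mem_append, all_map, lift_cm, lift_eqn, map_mul, map_inv, map_pow,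
    hlx, hlt, hlr, hlc, map_one, forall_const]
  constructor
  · rintro ⟨r1, r2, r3, r4, r5, r6, r7, r8, r9, r10, r11, r12, r13, r14, r15, r16, r17, r18⟩
    obtain ⟨X, hX⟩ := hom_exists (fun j => h (Sum.inl j)) (fun j k => r1 (j, k))
    refine ⟨X, hX, ?_⟩
    simp only [hlX X hX, hlT X hX] at r2 r3
    refine GenRel.mk ⟨?_, r3⟩ ?_ r5 ?_ r7 r8 r9 ?_ r11 ?_ r13 r14 r15 r16 r17 r18
    · intro i w
      have hh : (MulAut.conj (h (Sum.inr (Sum.inr (Sum.inl i))))).toMonoidHom.comp
          (X.comp (AddMonoidHom.toMultiplicative (D.μ i))) =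
          X.comp (AddMonoidHom.toMultiplicative (D.ν i)) := by
        apply hom_eq
        intro k
        change h (Sum.inr (Sum.inr (Sum.inl i))) * X (Multiplicative.ofAdd (D.μ i (Pi.single k 1)))
          * (h (Sum.inr (Sum.inr (Sum.inl i))))⁻¹ = X (Multiplicative.ofAdd (D.ν i (Pi.single k 1)))
        rw [mul_inv_eq_iff_eq_mul]
        exact r2 ⟨i, k⟩
      have h2 := DFunLike.congr_fun hh (Multiplicative.ofAdd w)
      change h (Sum.inr (Sum.inr (Sum.inl i))) * X (Multiplicative.ofAdd (D.μ i w))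
          * (h (Sum.inr (Sum.inr (Sum.inl i))))⁻¹ = X (Multiplicative.ofAdd (D.ν i w)) at h2
      exact mul_inv_eq_iff_eq_mul.1 h2
    · exact commute_all X _ (fun j => by rw [hX]; exact r4 j)
    · exact commute_all X _ (fun j => by rw [hX]; exact r6 j)
    · rw [hX]; exact r10
    · intro w
      exact commute_all ((MulAut.conj (h (Sum.inr (Sum.inr (Sum.inr 2))))).toMonoidHom.comp X) _
        (fun j => by
          change Commute _ (h (Sum.inr (Sum.inr (Sum.inr 2))) * X _ *
            (h (Sum.inr (Sum.inr (Sum.inr 2))))⁻¹)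
          rw [hX]; exact r12 j) w
  · rintro ⟨X, hX, hG⟩
    simp only [hlX X hX, hlT X hX]
    refine ⟨?_, ?_, hG.rel.rule, ?_, hG.zr, ?_, hG.ut, hG.ur, hG.uz, ?_, hG.vt, ?_, hG.τt,
      hG.τr', hG.τz, hG.τr, hG.c5, hG.cz⟩
    · intro q
      rw [← hX, ← hX]
      exact (Commute.all _ _).map X
    · intro q
      exact hG.rel.shift q.1 _
    · intro j
      rw [← hX]; exact hG.zx _
    · intro j
      rw [← hX]; exact hG.ux _
    · rw [← hX]; exact hG.vx
    · intro j
      rw [← hX]; exact hG.τx _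

end Pool.Agent.X223.ISO.Pres
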