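import Mathlib
import Pool.Agent.Y817.ISO.Stm

/-!
# Project ISO: part LEMA
-/

set_option autoImplicit false

namespace Pool.Agent.X223.ISO.LemA

open Pool.Agent.Y817.ISO HNNExtension

variable {G : Type} [Group G] {S M L : Subgroup G}

/-- The letters of a list of pairs. -/
def ltr (l : List (G × G)) : List (ℤˣ × G) := l.flatMap (fun p => [(1, p.1), (-1, p.2)])

/-- Good lists. -/
def Good (S M L : Subgroup G) (l : List (G × G)) : Prop :=
  (∀ p ∈ l, p.1 ∈ M ∧ p.1 ∉ S ∧ p.2 ∈ L) ∧ l.IsChain (fun a _ => a.2 ∉ S)

theorem ltr_chain {l : List (G × G)} (h : Good S M L l) :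
    (ltr l).IsChain (fun a b => a.2 ∈ toSubgroup S S a.1 → a.1 = b.1) := by
  have key : ∀ (u : ℤˣ), toSubgroup S S u = S := by
    intro u
    rcases Int.units_eq_one_or u with rfl | rfl
    · simp
    · simp
  induction l with
  | nil => exact List.isChain_nil
  | cons a l ih =>
    have h2 : Good S M L l := ⟨fun p hp => h.1 p (List.mem_cons_of_mem _ hp),
      (List.isChain_cons.1 h.2).2⟩
    have ih' := ih h2
    have ha := h.1 a List.mem_cons_self
    change ((1, a.1) :: (-1, a.2) :: ltr l).IsChain _
    rw [List.isChain_cons_cons]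
    refine ⟨fun h3 => ?_, ?_⟩
    · exfalso
      rw [key] at h3
      exact ha.2.1 h3
    · rw [List.isChain_cons]
      refine ⟨?_, ih'⟩
      intro y hy h3
      exfalso
      rw [key] at h3
      cases l with
      | nil => simp [ltr] at hy
      | cons b l =>
        exact (List.isChain_cons_cons.1 h.2).1 h3

/-- The value of a list. -/
def val (S : Subgroup G) (l : List (G × G)) : CE G S :=
  (l.map (fun p => (t * of p.1 * t⁻¹ * of p.2 : CE G S))).prod

theorem val_eq (l : List (G × G)) :
    ((ltr l).map (fun x => (t ^ (x.1 : ℤ) * of x.2 : CE G S))).prod = val S l := by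
  induction l with
  | nil => simp [ltr, val]
  | cons a l ih =>
    change (((1, a.1) :: (-1, a.2) :: ltr l).map _).prod = _
    simp only [List.map_cons, List.prod_cons, val] at ih ⊢
    rw [ih]
    simp [mul_assoc]

theorem of_comm {s : G} (hs : s ∈ S) : (t * of s * t⁻¹ : CE G S) = of s := by
  have := equiv_eq_conj (φ := MulEquiv.refl S) (⟨s, hs⟩ : S)
  simpa using this.symm

theorem form (hSM : S ⊓ M ≤ L) (hLM : L ≤ M) (y : CE G S)
    (hy : y ∈ Subgroup.closure
    ((fun g : G => (t * of g * t⁻¹ : CE G S)) '' M ∪ (fun g : G => (of g : CE G S)) '' L)) :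
    ∃ l0 ∈ L, ∃ l : List (G × G), Good S M L l ∧ y = of l0 * val S l := by
  have mulL : ∀ l' ∈ L, ∀ y : CE G S, (∃ l0 ∈ L, ∃ l : List (G × G), Good S M L l ∧
      y = of l0 * val S l) → ∃ l0 ∈ L, ∃ l : List (G × G), Good S M L l ∧
      of l' * y = of l0 * val S l := by
    rintro l' hl' y ⟨l0, hl0, l, hl, rfl⟩
    exact ⟨l' * l0, mul_mem hl' hl0, l, hl, by rw [map_mul, mul_assoc]⟩
  have mulM : ∀ m ∈ M, ∀ y : CE G S, (∃ l0 ∈ L, ∃ l : List (G × G), Good S M L l ∧
      y = of l0 * val S l) → ∃ l0 ∈ L, ∃ l : List (G × G), Good S M L l ∧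
      t * of m * t⁻¹ * y = of l0 * val S l := by
    intro m hm y hy
    by_cases hmS : m ∈ S
    · rw [of_comm hmS]
      exact mulL m (hSM ⟨hmS, hm⟩) y hy
    · obtain ⟨l0, hl0, l, hl, rfl⟩ := hy
      cases l with
      | nil =>
        refine ⟨1, one_mem _, [(m, l0)], ⟨?_, ?_⟩, ?_⟩
        · intro p hp
          rw [List.mem_singleton] at hp
          subst hp
          exact ⟨hm, hmS, hl0⟩
        · simp
        · simp [val]
      | cons a l =>
        have ha := hl.1 a List.mem_cons_self
        have hl' : Good S M L l := ⟨fun p hp => hl.1 p (List.mem_cons_of_mem _ hp),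
          (List.isChain_cons.1 hl.2).2⟩
        by_cases hl0S : l0 ∈ S
        · have hcalc : (t * of m * t⁻¹ * (of l0 * val S (a :: l)) : CE G S) =
              t * of (m * l0 * a.1) * t⁻¹ * of a.2 * val S l := by
            have h1 : (t⁻¹ * of l0 * t : CE G S) = of l0 := by
              have := of_comm (S := S) hl0S
              nth_rw 1 [← this]
              group
            simp only [val, List.map_cons, List.prod_cons, map_mul]
            calc (t * of m * t⁻¹ * (of l0 * (t * of a.1 * t⁻¹ * of a.2 *
                  (List.map (fun p => (t * of p.1 * t⁻¹ * of p.2 : CE G S)) l).prod)) : CE G S)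
                = t * of m * (t⁻¹ * of l0 * t) * of a.1 * t⁻¹ * of a.2 *
                  (List.map (fun p => (t * of p.1 * t⁻¹ * of p.2 : CE G S)) l).prod := by
                  group
              _ = _ := by rw [h1]; group
          rw [hcalc]
          have hmem : m * l0 * a.1 ∈ M := mul_mem (mul_mem hm (hLM hl0)) ha.1
          by_cases hS : m * l0 * a.1 ∈ S
          · rw [of_comm hS]
            refine ⟨m * l0 * a.1 * a.2, mul_mem (hSM ⟨hS, hmem⟩) ha.2.2, l, hl', ?_⟩
            rw [map_mul of (m * l0 * a.1) a.2]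
          · refine ⟨1, one_mem _, (m * l0 * a.1, a.2) :: l, ⟨?_, ?_⟩, ?_⟩
            · intro p hp
              rcases List.mem_cons.1 hp with rfl | hp
              · exact ⟨hmem, hS, ha.2.2⟩
              · exact hl'.1 p hp
            · have := hl.2
              cases l with
              | nil => simp
              | cons b l =>
                rw [List.isChain_cons_cons] at this ⊢
                exact this
            · simp [val]
        · refine ⟨1, one_mem _, (m, l0) :: a :: l, ⟨?_, ?_⟩, ?_⟩
          · intro p hp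
            rcases List.mem_cons.1 hp with rfl | hp
            · exact ⟨hm, hmS, hl0⟩
            · exact hl.1 p hp
          · rw [List.isChain_cons_cons]
            exact ⟨hl0S, hl.2⟩
          · simp [val, mul_assoc]
  induction hy using Subgroup.closure_induction_left with
  | one => exact ⟨1, one_mem _, [], ⟨by simp, List.isChain_nil⟩, by simp [val]⟩
  | mul_left x hx y hy ih =>
    rcases hx with ⟨m, hm, rfl⟩ | ⟨l, hl, rfl⟩
    · exact mulM m hm y ih
    · exact mulL l hl y ih
  | inv_mul_cancel x hx y hy ih =>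
    rcases hx with ⟨m, hm, rfl⟩ | ⟨l, hl, rfl⟩
    · have := mulM m⁻¹ (inv_mem hm) y ih
      have h2 : (t * of m * t⁻¹ : CE G S)⁻¹ = t * of m⁻¹ * t⁻¹ := by
        rw [map_inv]; group
      simp only
      rw [h2]
      exact this
    · have := mulL l⁻¹ (inv_mem hl) y ih
      simp only
      rw [← map_inv]
      exact this

/-- LEMA. -/
theorem t : StmLemA := by
  intro G _ S M L hSM hLM x hx
  obtain ⟨l0, hl0, l, hl, h⟩ := form hSM hLM _ hx
  let w : NormalWord.ReducedWord G S S := ⟨l0, ltr l, ltr_chain hl⟩
  have hw : w.prod (MulEquiv.refl S) = HNNExtension.of x := by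
    rw [h]
    change of l0 * ((ltr l).map (fun x => (HNNExtension.t ^ (x.1 : ℤ) * of x.2 : CE G S))).prod = _
    rw [val_eq]
  have h2 := ReducedWord.toList_eq_nil_of_mem_of_range (MulEquiv.refl S) w ⟨x, hw.symm⟩
  have h3 : l = [] := by
    cases l with
    | nil => rfl
    | cons a l => exact absurd h2 (by simp [w, ltr])
  subst h3
  have h4 : (of x : CE G S) = of l0 := by
    rw [h]; simp [val]
  rw [of_injective _ h4]
  exact hl0

end Pool.Agent.X223.ISO.LemA
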