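import Mathlib
import Pool.Agent.Y817.ISO.Stm

/-!
# Project ISO: parts SUBHNN and SQUARE
-/

set_option autoImplicit false

namespace Pool.Agent.X223.ISO.SubHNN

open Pool.Agent.Y817.ISO HNNExtension

theorem tsub {G : Type} [Group G] {S : Subgroup G} (u : ℤˣ) : toSubgroup S S u = S := by
  rcases Int.units_eq_one_or u with rfl | rfl
  · simp
  · simp

theorem exists_word {G : Type} [Group G] {S : Subgroup G} (x : CE G S) :
    ∃ w : NormalWord.ReducedWord G S S, w.prod (MulEquiv.refl S) = x := by
  obtain ⟨d⟩ := NormalWord.TransversalPair.nonempty G S S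
  exact ⟨((NormalWord.equiv (MulEquiv.refl S) d) x).toReducedWord,
    (NormalWord.equiv (MulEquiv.refl S) d).symm_apply_apply x⟩

/-- SUBHNN. -/
theorem t : StmSubHNN := by
  intro A G _ _ α SA S hα hS
  have hx : ∀ a : SA, (HNNExtension.t : CE G S) * (of.comp α) (a : A) =
      (of.comp α) ((MulEquiv.refl SA a : SA) : A) * HNNExtension.t := by
    intro a
    have := t_mul_of (φ := MulEquiv.refl S) (⟨α a, (hS a).2 a.2⟩ : S)
    simpa using this
  refine ⟨lift (of.comp α) HNNExtension.t hx, ?_, ?_, ?_⟩
  · rw [injective_iff_map_eq_one]
    intro y hy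
    obtain ⟨w, rfl⟩ := exists_word y
    let w' : NormalWord.ReducedWord G S S := ⟨α w.head, w.toList.map (fun p => (p.1, α p.2)), by
      rw [List.isChain_map]
      refine w.chain.imp ?_
      intro a b h h2
      rw [tsub] at h h2
      exact h ((hS a.2).1 h2)⟩
    have hw : w'.prod (MulEquiv.refl S) = 1 := by
      rw [← hy]
      simp only [NormalWord.ReducedWord.prod, w', map_mul, lift_of, MonoidHom.comp_apply,
        List.map_map, map_list_prod]
      congr 2
      refine List.map_congr_left ?_
      intro p _
      simp
    have h2 := ReducedWord.toList_eq_nil_of_mem_of_range (MulEquiv.refl S) w' ⟨1, by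
      rw [hw, map_one]⟩
    have h3 : w.toList = [] := by simpa [w'] using h2
    have h4 : (of (α w.head) : CE G S) = of 1 := by
      rw [map_one, ← hw]
      simp [NormalWord.ReducedWord.prod, w', h3]
    have h5 : w.head = 1 := hα (by rw [of_injective _ h4, map_one])
    simp [NormalWord.ReducedWord.prod, h3, h5]
  · intro a
    simp
  · simp

/-- SQUARE. -/
theorem square : StmSquare := by
  intro K _ Q
  have hx : ∀ a : Q, (HNNExtension.t ^ 2 : CE K Q) * of (a : K) =
      of ((MulEquiv.refl Q a : Q) : K) * HNNExtension.t ^ 2 := by
    intro a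
    have := t_mul_of (φ := MulEquiv.refl Q) a
    simp only [MulEquiv.refl_apply] at this ⊢
    rw [pow_two, mul_assoc, this, ← mul_assoc, this, mul_assoc]
  refine ⟨lift of (HNNExtension.t ^ 2) hx, ?_, ?_, ?_⟩
  · rw [injective_iff_map_eq_one]
    intro y hy
    obtain ⟨w, rfl⟩ := exists_word y
    have hchain : ∀ l : List (ℤˣ × K),
        l.IsChain (fun a b => a.2 ∈ toSubgroup Q Q a.1 → a.1 = b.1) →
        (l.flatMap (fun p => [(p.1, (1 : K)), (p.1, p.2)])).IsChain
          (fun a b => a.2 ∈ toSubgroup Q Q a.1 → a.1 = b.1) := by
      intro l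
      induction l with
      | nil => intro _; exact List.isChain_nil
      | cons a l ih =>
        intro h
        change ((a.1, 1) :: (a.1, a.2) :: l.flatMap _).IsChain _
        rw [List.isChain_cons_cons]
        refine ⟨fun _ => rfl, ?_⟩
        rw [List.isChain_cons]
        refine ⟨?_, ih (List.isChain_cons.1 h).2⟩
        intro y hy h3
        cases l with
        | nil => simp at hy
        | cons b l =>
          have h4 : y = (b.1, 1) := by simpa using hy.symm
          subst h4
          exact (List.isChain_cons_cons.1 h).1 h3
    let w' : NormalWord.ReducedWord K Q Q := ⟨w.head, w.toList.flatMap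
      (fun p => [(p.1, (1 : K)), (p.1, p.2)]), hchain _ w.chain⟩
    have hw : w'.prod (MulEquiv.refl Q) = 1 := by
      rw [← hy]
      simp only [NormalWord.ReducedWord.prod, w', map_mul, lift_of, map_list_prod, List.map_map]
      congr 1
      generalize w.toList = l
      induction l with
      | nil => simp
      | cons a l ih =>
        simp only [List.flatMap_cons, List.map_cons, List.map_append, List.prod_cons,
          List.prod_append, List.map_nil, List.prod_nil, Function.comp_apply, map_mul, map_zpow,
          lift_t, lift_of, map_one, mul_one] at ih ⊢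
        rw [ih, ← mul_assoc]
        congr 2
        rw [← zpow_natCast, ← zpow_mul]
        rw [← zpow_add]
        congr 1
        push_cast
        ring
    have h2 := ReducedWord.toList_eq_nil_of_mem_of_range (MulEquiv.refl Q) w' ⟨1, by
      rw [hw, map_one]⟩
    have h3 : w.toList = [] := by
      cases hl : w.toList with
      | nil => rfl
      | cons a l => exact absurd h2 (by simp [w', hl])
    have h4 : (of w.head : CE K Q) = of 1 := by
      rw [map_one, ← hw]
      simp [NormalWord.ReducedWord.prod, w', h3]
    have h5 : w.head = 1 := of_injective _ h4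
    simp [NormalWord.ReducedWord.prod, h3, h5]
  · intro a
    simp
  · simp

end Pool.Agent.X223.ISO.SubHNN
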